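import Pool.Agent.H705.GB.Stm

/-! # GB PR (helper705): probabilities of one and two substitutes as counting proportions -/

set_option autoImplicit false

namespace Pool.Agent.H390.GB

open MeasureTheory ProbabilityTheory Finset Filter Topology
open Pool.Agent.H705.TR (PrimeIn Model un P_GEN P_CRT P_UN P_MOD)
open Pool.Agent.H705.GB

theorem par_odd (v : ℕ → ℕ) {c : ℕ} (hc : c % 2 = 1) : par v c = 2 * v c + 1 := by
  unfold par
  rw [hc]

theorem T_PR (hUN : P_UN) (hGEN : P_GEN) : P_PR := by
  intro Ω _ M P Y hM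
  have h1 : ∀ (c : ℕ) (Q : ℕ → Prop), c % 2 = 1 →
      P.real {ω | Q (par (fun i => Y i ω) c)} = un (M c) (fun y => Q (2 * y + 1)) := by
    intro c Q hc
    have h2 := (hUN Ω M P Y hM c (fun y => Q (2 * y + 1))).2
    rw [← h2]
    have h3 : {ω | Q (par (fun i => Y i ω) c)} = {ω | Q (2 * Y c ω + 1)} := by
      ext ω
      simp only [Set.mem_setOf_eq]
      rw [par_odd _ hc]
    rw [h3]
  refine ⟨h1, ?_⟩
  intro c c' Q Q' hc hc' hne
  have h2 := (hGEN Ω P ℕ Y hM.prob hM.meas hM.indep {c} {c'} (Finset.disjoint_singleton.2 hne)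
    (fun v => Q (par v c)) (fun v => Q' (par v c'))
    (fun v w h => by
      have h3 := h c (Finset.mem_singleton_self c)
      rw [par_odd _ hc, par_odd _ hc, h3])
    (fun v w h => by
      have h3 := h c' (Finset.mem_singleton_self c')
      rw [par_odd _ hc', par_odd _ hc', h3])).2.2
  rw [h2, h1 c Q hc, h1 c' Q' hc']

end Pool.Agent.H390.GB
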